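import Pool.Agent.Zk97.CB.XDefs

/-!
# The divisor class group of a function field which is the fraction field of a PID (module X)
-/

set_option autoImplicit false
set_option linter.all false

namespace Pool.Agent.Zk85.CB

open Pool.Agent.Zk97.CB

/-! ### the value group of a valuation subring -/

section vg

variable {L : Type} [Field L] (O : ValuationSubring L)

/-- the order -/
noncomputable def od : Additive Lˣ →+ Additive (O.ValueGroup)ˣ :=
  MonoidHom.toAdditive (Units.map (O.valuation.toMonoidWithZeroHom : L →* O.ValueGroup))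

lemma od_coe (x : Lˣ) : ((od O (Additive.ofMul x)).toMul : O.ValueGroup) = O.valuation (x : L) := rfl

lemma od_eq_zero (x : Lˣ) : od O (Additive.ofMul x) = 0 ↔ O.valuation (x : L) = 1 := by
  constructor
  · intro h
    rw [← od_coe, h]
    rfl
  · intro h
    apply Additive.toMul.injective
    apply Units.ext
    rw [od_coe, h]
    rfl

lemma od_surj : Function.Surjective (od O) := by
  intro g
  obtain ⟨x, hx⟩ := O.valuation_surjective (g.toMul : O.ValueGroup)
  have hx0 : x ≠ 0 := by
    rintro rfl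
    rw [map_zero] at hx
    exact g.toMul.ne_zero hx.symm
  refine ⟨Additive.ofMul (Units.mk0 x hx0), ?_⟩
  apply Additive.toMul.injective
  apply Units.ext
  rw [od_coe, Units.val_mk0, hx]

/-- a generator of the value group -/
lemma gen_equiv (hO : O ≠ ⊤) (x₀ : Lˣ)
    (hx : ∀ x : Lˣ, ∃ n : ℤ, O.valuation (x : L) = O.valuation (x₀ : L) ^ n) :
    Nonempty (ℤ ≃ₗ[ℤ] Additive (O.ValueGroup)ˣ) := by
  have hv1 : ∀ n : ℤ, n ≠ 0 → O.valuation (x₀ : L) ^ n ≠ 1 := by
    intro n hn h
    apply hO
    rw [eq_top_iff]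
    intro y _
    by_cases hy : y = 0
    · rw [hy]; exact O.zero_mem
    have hv0 : O.valuation (x₀ : L) ≠ 0 := by
      rw [Valuation.ne_zero_iff]
      exact x₀.ne_zero
    have h1 : O.valuation (x₀ : L) = 1 := by
      by_contra h2
      exact hn ((zpow_eq_one_iff_right₀ bot_le h2).mp h)
    obtain ⟨m, hm⟩ := hx (Units.mk0 y hy)
    rw [h1, one_zpow] at hm
    rw [← O.valuation_le_one_iff]
    exact hm.le
  refine ⟨LinearEquiv.ofBijective
    (LinearMap.toSpanSingleton ℤ (Additive (O.ValueGroup)ˣ) (od O (Additive.ofMul x₀))) ⟨?_, ?_⟩⟩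
  · rw [injective_iff_map_eq_zero]
    intro n hn
    by_contra hn0
    rw [LinearMap.toSpanSingleton_apply, ← map_zsmul, ← ofMul_zpow, od_eq_zero] at hn
    rw [Units.val_zpow_eq_zpow_val, map_zpow₀] at hn
    exact hv1 n hn0 hn
  · intro g
    obtain ⟨x, rfl⟩ := od_surj O g
    obtain ⟨n, hn⟩ := hx x.toMul
    refine ⟨n, ?_⟩
    rw [LinearMap.toSpanSingleton_apply, ← map_zsmul, ← ofMul_zpow]
    apply Additive.toMul.injective
    apply Units.ext
    rw [od_coe, Units.val_zpow_eq_zpow_val, map_zpow₀, ← hn]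
    rfl

lemma rank_dvr (hO : O ≠ ⊤) (hd : IsDiscreteValuationRing O) :
    Nonempty (ℤ ≃ₗ[ℤ] Additive (O.ValueGroup)ˣ) := by
  obtain ⟨ϖ, hϖ⟩ := IsDiscreteValuationRing.exists_irreducible O
  have h0 : (ϖ : L) ≠ 0 := fun h => hϖ.ne_zero (Subtype.ext h)
  refine gen_equiv O hO (Units.mk0 (ϖ : L) h0) ?_
  intro x
  obtain ⟨n, u, hx⟩ := IsDiscreteValuationRing.exists_units_eq_smul_zpow_of_irreducible
    (K := L) hϖ x.ne_zero
  refine ⟨n, ?_⟩
  rw [hx, Units.smul_def, Algebra.smul_def, map_mul, map_zpow₀]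
  have : O.valuation (algebraMap O L (u : O)) = 1 := O.valuation_unit u
  rw [this, one_mul]
  rfl

end vg

/-! ### places containing a principal ideal domain -/

section pid

variable {L T : Type} [Field L] [CommRing T] [IsDomain T] [IsPrincipalIdealRing T] [Algebra T L]
  [IsFractionRing T L]

/-- factorization of an element of the fraction field -/
lemma factor {π : T} (hπ : Prime π) {x : L} (hx : x ≠ 0) :
    ∃ (n : ℤ) (a b : T), ¬ π ∣ a ∧ ¬ π ∣ b ∧
      x = algebraMap T L π ^ n * (algebraMap T L a / algebraMap T L b) := by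
  obtain ⟨r, s, hs, rfl⟩ := IsFractionRing.div_surjective (A := T) x
  have hs0 : s ≠ 0 := nonZeroDivisors.ne_zero hs
  have hr0 : r ≠ 0 := by
    rintro rfl
    simp at hx
  obtain ⟨i, a, ha, rfl⟩ := WfDvdMonoid.max_power_factor hr0 hπ.irreducible
  obtain ⟨j, b, hb, rfl⟩ := WfDvdMonoid.max_power_factor hs0 hπ.irreducible
  have hπ0 : algebraMap T L π ≠ 0 := by
    rw [Ne, map_eq_zero_iff _ (IsFractionRing.injective T L)]
    exact hπ.ne_zero
  refine ⟨(i : ℤ) - j, a, b, ha, hb, ?_⟩
  rw [map_mul, map_mul, map_pow, map_pow, zpow_sub₀ hπ0, zpow_natCast, zpow_natCast]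
  rw [div_mul_div_comm]

/-- `O` is the valuation ring of the prime element `π` -/
def At (O : ValuationSubring L) (π : T) : Prop :=
  ∀ a : T, O.valuation (algebraMap T L a) ≤ 1 ∧ (O.valuation (algebraMap T L a) < 1 ↔ π ∣ a)

lemma At.val {π : T} {n : ℤ} {a b : T} (ha : ¬ π ∣ a) (hb : ¬ π ∣ b) {O : ValuationSubring L}
    (h : At O π) : O.valuation (algebraMap T L π ^ n * (algebraMap T L a / algebraMap T L b)) =
      O.valuation (algebraMap T L π) ^ n := by
  have h1 : ∀ c : T, ¬ π ∣ c → O.valuation (algebraMap T L c) = 1 := by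
    intro c hc
    refine le_antisymm (h c).1 ?_
    by_contra h2
    exact hc ((h c).2.mp (not_le.mp h2))
  rw [map_mul, map_zpow₀, map_div₀, h1 a ha, h1 b hb, div_one, mul_one]

/-- a place which contains `T` comes from a prime element -/
lemma exists_at {O : ValuationSubring L} (hO : O ≠ ⊤) (hT : ∀ t : T, algebraMap T L t ∈ O) :
    ∃ π : T, Prime π ∧ At O π := by
  let f : T →+* O := (algebraMap T L).codRestrict O.toSubring hT
  let p : Ideal T := (IsLocalRing.maximalIdeal O).comap f
  have hp : p.IsPrime := Ideal.comap_isPrime f _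
  have hpm : ∀ a : T, a ∈ p ↔ O.valuation (algebraMap T L a) < 1 := by
    intro a
    rw [Ideal.mem_comap, O.valuation_lt_one_iff]
    rfl
  have hp0 : p ≠ ⊥ := by
    intro h
    apply hO
    rw [eq_top_iff]
    intro x _
    obtain ⟨r, s, hs, rfl⟩ := IsFractionRing.div_surjective (A := T) x
    have hs0 : s ≠ 0 := nonZeroDivisors.ne_zero hs
    rw [← O.valuation_le_one_iff, map_div₀]
    have h1 : O.valuation (algebraMap T L s) = 1 := by
      refine le_antisymm ((O.valuation_le_one_iff _).mpr (hT s)) ?_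
      by_contra h2
      have : s ∈ p := (hpm s).mpr (not_le.mp h2)
      rw [h, Ideal.mem_bot] at this
      exact hs0 this
    rw [h1, div_one]
    exact (O.valuation_le_one_iff _).mpr (hT r)
  obtain ⟨π, hπ⟩ := (IsPrincipalIdealRing.principal p).principal
  have hπp : p = Ideal.span {π} := hπ
  have hπ0 : π ≠ 0 := by
    rintro rfl
    apply hp0
    rw [hπp, Ideal.span_singleton_eq_bot]
  refine ⟨π, ?_, fun a => ⟨(O.valuation_le_one_iff _).mpr (hT a), ?_⟩⟩
  · rw [hπp] at hp
    exact (Ideal.span_singleton_prime hπ0).mp hp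
  · rw [← hpm, hπp, Ideal.mem_span_singleton]

/-- the place is determined by the prime element -/
lemma At.eq {π : T} (hπ : Prime π) {O O' : ValuationSubring L} (hO : O ≠ ⊤) (hO' : O' ≠ ⊤)
    (h : At O π) (h' : At O' π) : O = O' := by
  have key : ∀ (P : ValuationSubring L), At P π → ∀ (n : ℤ) (a b : T), ¬ π ∣ a → ¬ π ∣ b →
      (algebraMap T L π ^ n * (algebraMap T L a / algebraMap T L b) ∈ P ↔ 0 ≤ n) := by
    intro P hP n a b ha hb
    rw [← P.valuation_le_one_iff, hP.val ha hb]
    have hlt : P.valuation (algebraMap T L π) < 1 := (hP π).2.mpr dvd_rfl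
    have hne : P.valuation (algebraMap T L π) ≠ 0 := by
      rw [Valuation.ne_zero_iff, Ne, map_eq_zero_iff _ (IsFractionRing.injective T L)]
      exact hπ.ne_zero
    constructor
    · intro h1
      by_contra h2
      have h3 : 0 < -n := by omega
      have h4 : 1 < P.valuation (algebraMap T L π) ^ n := by
        have h5 : 1 < (P.valuation (algebraMap T L π))⁻¹ := (one_lt_inv₀ (zero_lt_iff.mpr hne)).mpr hlt
        have h6 := one_lt_zpow₀ h5 h3
        rwa [inv_zpow', neg_neg] at h6
      exact absurd h1 (not_le.mpr h4)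
    · intro h1
      obtain ⟨m, rfl⟩ := Int.eq_ofNat_of_zero_le h1
      rw [zpow_natCast]
      exact pow_le_one' hlt.le m
  apply ValuationSubring.ext
  intro x
  by_cases hx : x = 0
  · subst hx
    exact ⟨fun _ => O'.zero_mem, fun _ => O.zero_mem⟩
  · obtain ⟨n, a, b, ha, hb, rfl⟩ := factor (T := T) hπ hx
    rw [key O h n a b ha hb, key O' h' n a b ha hb]

/-- different places: the prime element of one is a unit at the other -/
lemma At.other {π : T} (hπ : Prime π) {O O' : ValuationSubring L} (hO : O ≠ ⊤) (hO' : O' ≠ ⊤)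
    (h : At O π) (hT' : ∀ t : T, algebraMap T L t ∈ O') (hne : O ≠ O') :
    O'.valuation (algebraMap T L π) = 1 := by
  refine le_antisymm ((O'.valuation_le_one_iff _).mpr (hT' π)) ?_
  by_contra h2
  obtain ⟨π', hπ', h'⟩ := exists_at (T := T) hO' hT'
  have h3 : π' ∣ π := (h' π).2.mp (not_le.mp h2)
  have h4 : Associated π' π := hπ'.associated_of_dvd hπ h3
  apply hne
  refine At.eq hπ hO hO' h ?_
  intro a
  refine ⟨(h' a).1, (h' a).2.trans h4.dvd_iff_dvd_left⟩

/-- an element with value one at all places which contain `T` is a unit of `T` -/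
lemma unit_of (x : Lˣ) (h : ∀ O : ValuationSubring L, O ≠ ⊤ → (∀ t : T, algebraMap T L t ∈ O) →
    O.valuation (x : L) = 1) : ∃ u : Tˣ, algebraMap T L (u : T) = x := by
  have key : ∀ y : L, (∀ O : ValuationSubring L, O ≠ ⊤ → (∀ t : T, algebraMap T L t ∈ O) →
      O.valuation y ≤ 1) → ∃ t : T, algebraMap T L t = y := by
    intro y hy
    have := IsDedekindDomain.HeightOneSpectrum.mem_integers_of_valuation_le_one (R := T) L y ?_
    · obtain ⟨t, ht⟩ := this
      exact ⟨t, ht⟩
    intro v
    let O : ValuationSubring L := (v.valuation L).valuationSubring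
    have hmem : ∀ z : L, z ∈ O ↔ v.valuation L z ≤ 1 := fun z => Iff.rfl
    have hO : O ≠ ⊤ := by
      intro htop
      obtain ⟨π, hπ⟩ := v.valuation_exists_uniformizer L
      have h1 : π⁻¹ ∈ O := by rw [htop]; trivial
      rw [hmem, map_inv₀, hπ] at h1
      revert h1
      rw [← WithZero.exp_neg, neg_neg, ← WithZero.exp_zero, WithZero.exp_le_exp]
      norm_num
    have hT : ∀ t : T, algebraMap T L t ∈ O := fun t => v.valuation_le_one t
    have := hy O hO hT
    rw [O.valuation_le_one_iff, hmem] at this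
    exact this
  obtain ⟨t, ht⟩ := key x (fun O h1 h2 => (h O h1 h2).le)
  obtain ⟨s, hs⟩ := key (x⁻¹ : Lˣ) (fun O h1 h2 => by
    rw [Units.val_inv_eq_inv_val, map_inv₀, h O h1 h2, inv_one])
  have hts : t * s = 1 := by
    apply IsFractionRing.injective T L
    rw [map_mul, ht, hs, map_one, Units.mul_inv]
  exact ⟨⟨t, s, hts, by rw [mul_comm]; exact hts⟩, ht⟩

end pid

/-! ### the divisor class group -/

lemma val_one_of_mem {L : Type} [Field L] {O : ValuationSubring L} {x : L} (hx0 : x ≠ 0)
    (h1 : x ∈ O) (h2 : x⁻¹ ∈ O) : O.valuation x = 1 := by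
  refine le_antisymm ((O.valuation_le_one_iff _).mpr h1) ?_
  have h3 := (O.valuation_le_one_iff _).mpr h2
  rw [map_inv₀] at h3
  have h4 : O.valuation x ≠ 0 := by
    rw [Valuation.ne_zero_iff]; exact hx0
  exact (inv_le_one₀ (zero_lt_iff.mpr h4)).mp h3

/-- independence of the orders at the places which contain `T` -/
lemma local_div {L T : Type} [Field L] [CommRing T] [IsDomain T] [IsPrincipalIdealRing T]
    [Algebra T L] [IsFractionRing T L] (O : ValuationSubring L) (hO : O ≠ ⊤)
    (hT : ∀ t : T, algebraMap T L t ∈ O) (g : Additive (O.ValueGroup)ˣ) :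
    ∃ y : Additive Lˣ, od O y = g ∧ ∀ O' : ValuationSubring L, O' ≠ ⊤ →
      (∀ t : T, algebraMap T L t ∈ O') → O' ≠ O → od O' y = 0 := by
  obtain ⟨π, hπ, hat⟩ := exists_at (T := T) hO hT
  obtain ⟨x, rfl⟩ := od_surj O g
  obtain ⟨n, a, b, ha, hb, hx⟩ := factor (T := T) hπ x.toMul.ne_zero
  have hπ0 : algebraMap T L π ≠ 0 := by
    rw [Ne, map_eq_zero_iff _ (IsFractionRing.injective T L)]
    exact hπ.ne_zero
  refine ⟨n • Additive.ofMul (Units.mk0 _ hπ0), ?_, ?_⟩
  · rw [← ofMul_zpow]
    apply Additive.toMul.injective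
    apply Units.ext
    have e1 : ((od O x).toMul : O.ValueGroup) = O.valuation (x.toMul : L) := rfl
    rw [od_coe, e1, hx, hat.val ha hb, Units.val_zpow_eq_zpow_val, map_zpow₀]
    rfl
  · intro O' hO' hT' hne
    rw [map_zsmul]
    have : od O' (Additive.ofMul (Units.mk0 _ hπ0)) = 0 := by
      rw [od_eq_zero]
      exact hat.other hπ hO hO' hT' (Ne.symm hne)
    rw [this, smul_zero]

theorem t_X : StX := by
  intro K L T _ _ _ _ _ _ _ _ κ hκ hfin hdvr hZ hconst
  classical
  set Z : Set (Place K L) := {O : Place K L | ¬ ∀ t : T, algebraMap T L t ∈ O.1} with hZd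
  haveI : Finite Z := hZ.to_subtype
  have hord : ∀ (x : Additive Lˣ) (O : Place K L), ordP K L x O = od O.1 x := fun x O => rfl
  -- extension by zero
  let ext : ((O : Z) → Additive (O.1.1.ValueGroup)ˣ) →+ DivP K L :=
    { toFun := fun w => ⟨fun O => if h : O ∈ Z then w ⟨O, h⟩ else 0,
        hZ.subset (by
          intro O hO
          by_contra h
          exact hO (dif_neg h))⟩
      map_zero' := by
        apply Subtype.ext
        funext O
        show (if h : O ∈ Z then (0 : (O : Z) → Additive (O.1.1.ValueGroup)ˣ) ⟨O, h⟩ else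
          (0 : Additive (O.1.ValueGroup)ˣ)) = 0
        split_ifs <;> rfl
      map_add' := by
        intro v w
        apply Subtype.ext
        funext O
        show (if h : O ∈ Z then (v + w) ⟨O, h⟩ else (0 : Additive (O.1.ValueGroup)ˣ)) =
          (if h : O ∈ Z then v ⟨O, h⟩ else (0 : Additive (O.1.ValueGroup)ˣ)) +
          (if h : O ∈ Z then w ⟨O, h⟩ else (0 : Additive (O.1.ValueGroup)ˣ))
        split_ifs
        · rfl
        · rw [add_zero] }
  have hext1 : ∀ w (O : Place K L) (h : O ∈ Z), (ext w).1 O = w ⟨O, h⟩ := fun w O h => dif_pos h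
  have hext0 : ∀ w (O : Place K L), O ∉ Z → (ext w).1 O = 0 := fun w O h => dif_neg h
  set P : AddSubgroup (DivP K L) := (ordP K L).range.comap (DivP K L).subtype with hP
  have hPmem : ∀ D : DivP K L, D ∈ P ↔ ∃ x : Additive Lˣ, ordP K L x = D.1 := fun D => Iff.rfl
  let φ : ((O : Z) → Additive (O.1.1.ValueGroup)ˣ) →+ DivP K L ⧸ P := (QuotientAddGroup.mk' P).comp ext
  let ψ : Additive Tˣ →+ ((O : Z) → Additive (O.1.1.ValueGroup)ˣ) :=
    Pi.addMonoidHom fun O : Z => (od O.1.1).comp
      (MonoidHom.toAdditive (Units.map ((algebraMap T L : T →+* L) : T →* L)))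
  have hnotZ : ∀ O : Place K L, O ∉ Z → ∀ t : T, algebraMap T L t ∈ O.1 := by
    intro O hO
    by_contra h
    exact hO h
  -- surjectivity
  have hφs : Function.Surjective φ := by
    intro q
    obtain ⟨D, rfl⟩ := QuotientAddGroup.mk'_surjective P q
    have hDf : {O | D.1 O ≠ 0}.Finite := D.2
    have hch : ∀ O : Place K L, ∃ y : Additive Lˣ, O ∉ Z → (od O.1 y = D.1 O ∧
        ∀ O' : Place K L, O' ∉ Z → O' ≠ O → od O'.1 y = 0) := by
      intro O
      by_cases hO : O ∈ Z
      · exact ⟨0, fun h => absurd hO h⟩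
      · obtain ⟨y, hy1, hy2⟩ := local_div (T := T) O.1 O.2.2 (hnotZ O hO) (D.1 O)
        refine ⟨y, fun _ => ⟨hy1, fun O' hO' hne => ?_⟩⟩
        exact hy2 O'.1 O'.2.2 (hnotZ O' hO') (fun h => hne (Subtype.ext h))
    choose y hy using hch
    let F : Finset (Place K L) := hDf.toFinset.filter (fun O => O ∉ Z)
    let x : Additive Lˣ := ∑ O ∈ F, y O
    have hx : ∀ O : Place K L, O ∉ Z → od O.1 x = D.1 O := by
      intro O hO
      show od O.1 (∑ O' ∈ F, y O') = D.1 O
      rw [map_sum]
      by_cases hOF : O ∈ F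
      · rw [Finset.sum_eq_single O]
        · exact (hy O hO).1
        · intro O' hO' hne
          exact (hy O' (Finset.mem_filter.mp hO').2).2 O hO (Ne.symm hne)
        · intro h
          exact absurd hOF h
      · have hD0 : D.1 O = 0 := by
          by_contra h
          apply hOF
          rw [Finset.mem_filter, Set.Finite.mem_toFinset]
          exact ⟨h, hO⟩
        rw [hD0]
        refine Finset.sum_eq_zero fun O' hO' => ?_
        refine (hy O' (Finset.mem_filter.mp hO').2).2 O hO ?_
        rintro rfl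
        exact hOF hO'
    refine ⟨fun O => D.1 O.1 - od O.1.1 x, ?_⟩
    show (QuotientAddGroup.mk' P) (ext _) = _
    rw [QuotientAddGroup.mk'_apply, QuotientAddGroup.mk'_apply, QuotientAddGroup.eq]
    rw [hPmem]
    refine ⟨x, ?_⟩
    funext O
    rw [hord]
    show _ = -(ext _).1 O + D.1 O
    by_cases hO : O ∈ Z
    · rw [hext1 _ O hO]
      abel
    · rw [hext0 _ O hO, hx O hO, neg_zero, zero_add]
  -- the kernel
  have hker : LinearMap.range ψ.toIntLinearMap = LinearMap.ker φ.toIntLinearMap := by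
    ext w
    rw [LinearMap.mem_range, LinearMap.mem_ker]
    show (∃ u : Additive Tˣ, ψ u = w) ↔ φ w = 0
    have h0 : φ w = 0 ↔ ext w ∈ P := by
      show (QuotientAddGroup.mk' P) (ext w) = 0 ↔ _
      rw [QuotientAddGroup.mk'_apply, QuotientAddGroup.eq_zero_iff]
    rw [h0, hPmem]
    constructor
    · rintro ⟨u, rfl⟩
      refine ⟨Additive.ofMul (Units.map ((algebraMap T L : T →+* L) : T →* L) u.toMul), ?_⟩
      funext O
      rw [hord]
      by_cases hO : O ∈ Z
      · rw [hext1 _ O hO]
        rfl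
      · rw [hext0 _ O hO, od_eq_zero]
        apply val_one_of_mem (Units.ne_zero _)
        · exact hnotZ O hO _
        · rw [← Units.val_inv_eq_inv_val, ← map_inv]
          exact hnotZ O hO _
    · rintro ⟨x, hx⟩
      have h1 : ∀ O : ValuationSubring L, O ≠ ⊤ → (∀ t : T, algebraMap T L t ∈ O) →
          O.valuation ((x.toMul : Lˣ) : L) = 1 := by
        intro O hO hT
        have hOK : ∀ c : K, algebraMap K L c ∈ O := fun c => by
          rw [← hκ c]; exact hT _
        have h2 : od O x = (ext w).1 (⟨O, hOK, hO⟩ : Place K L) :=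
          congrFun hx (⟨O, hOK, hO⟩ : Place K L)
        have h3 := h2.trans (hext0 w (⟨O, hOK, hO⟩ : Place K L) (fun h => h hT))
        exact (od_eq_zero O x.toMul).mp h3
      obtain ⟨u, hu⟩ := unit_of (T := T) x.toMul h1
      refine ⟨Additive.ofMul u, ?_⟩
      funext O
      have h2 := congrFun hx O.1
      rw [hord, hext1 _ O.1 O.2] at h2
      have h3 : Additive.ofMul (Units.map ((algebraMap T L : T →+* L) : T →* L) u) = x := by
        apply Additive.toMul.injective
        apply Units.ext
        exact hu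
      show od O.1.1 (Additive.ofMul (Units.map ((algebraMap T L : T →+* L) : T →* L) u)) = w O
      rw [h3]
      exact h2
  have hkerψ : LinearMap.range (MonoidHom.toAdditive (Units.map (κ : K →* T))).toIntLinearMap =
      LinearMap.ker ψ.toIntLinearMap := by
    ext u
    rw [LinearMap.mem_range, LinearMap.mem_ker]
    show (∃ c : Additive Kˣ, MonoidHom.toAdditive (Units.map (κ : K →* T)) c = u) ↔ ψ u = 0
    constructor
    · rintro ⟨c, rfl⟩
      funext O
      show od O.1.1 (Additive.ofMul (Units.map ((algebraMap T L : T →+* L) : T →* L)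
        (Units.map (κ : K →* T) c.toMul))) = 0
      rw [od_eq_zero]
      have e : ((Units.map ((algebraMap T L : T →+* L) : T →* L)
        (Units.map (κ : K →* T) c.toMul) : Lˣ) : L) = algebraMap K L (c.toMul : K) := hκ _
      rw [e]
      apply val_one_of_mem
      · rw [Ne, map_eq_zero]
        exact c.toMul.ne_zero
      · exact O.1.2.1 _
      · rw [← map_inv₀]
        exact O.1.2.1 _
    · intro h
      have h1 : ∀ O : Place K L, algebraMap T L (u.toMul : T) ∈ O.1 := by
        intro O
        by_cases hO : O ∈ Z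
        · have h2 := congrFun h ⟨O, hO⟩
          have h3 : O.1.valuation (algebraMap T L (u.toMul : T)) = 1 :=
            (od_eq_zero O.1 (Units.map ((algebraMap T L : T →+* L) : T →* L) u.toMul)).mp h2
          exact (O.1.valuation_le_one_iff _).mp h3.le
        · exact hnotZ O hO _
      obtain ⟨c, hc⟩ := hconst _ h1
      have hc1 : κ c = (u.toMul : T) := by
        apply IsFractionRing.injective T L
        rw [hκ, hc]
      have hc0 : c ≠ 0 := by
        rintro rfl
        rw [map_zero] at hc1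
        exact u.toMul.ne_zero hc1.symm
      refine ⟨Additive.ofMul (Units.mk0 c hc0), ?_⟩
      apply Additive.toMul.injective
      apply Units.ext
      exact hc1
  -- ranks
  have hrank1 : Module.rank ℤ ((O : Z) → Additive (O.1.1.ValueGroup)ˣ) =
      Module.rank ℤ (DivP K L ⧸ P) + Module.rank ℤ (LinearMap.ker φ.toIntLinearMap) :=
    LinearMap.rank_eq_of_surjective (f := φ.toIntLinearMap) hφs
  have hrank2 : uRank κ = Module.rank ℤ (LinearMap.ker φ.toIntLinearMap) := by
    have e := (Submodule.quotEquivOfEq _ _ hkerψ).trans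
      (ψ.toIntLinearMap.quotKerEquivRange.trans (LinearEquiv.ofEq _ _ hker))
    exact e.rank_eq
  have hfree : ∀ O : Z, Nonempty (ℤ ≃ₗ[ℤ] Additive (O.1.1.ValueGroup)ˣ) := fun O =>
    rank_dvr O.1.1 O.1.2.2 (hdvr O.1)
  haveI : ∀ O : Z, Module.Free ℤ (Additive (O.1.1.ValueGroup)ˣ) := fun O =>
    Module.Free.of_equiv (hfree O).some
  have hrank3 : Module.rank ℤ ((O : Z) → Additive (O.1.1.ValueGroup)ˣ) = (Z.ncard : Cardinal) := by
    rw [rank_pi]
    have : (fun O : Z => Module.rank ℤ (Additive (O.1.1.ValueGroup)ˣ)) = fun _ => 1 := by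
      funext O
      rw [← (hfree O).some.rank_eq, CommSemiring.rank_self]
    rw [this, Cardinal.sum_const', mul_one, Set.cast_ncard hZ]
  have : picRank K L = Module.rank ℤ (DivP K L ⧸ P) := rfl
  rw [this, hrank2, ← hrank1, hrank3]

end Pool.Agent.Zk85.CB
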